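import Mathlib

namespace Pool.Agent.T6.H84.Cover

open Set Module Submodule

variable {F V : Type*} [Field F] [AddCommGroup V] [Module F V]

/-- colour class -/
def cls {k : ℕ} (f : V → Option (Fin k)) (i : Fin k) : Set V := {x | f x = some i}

/-- good colourings: only elements of `E` are coloured and colour classes are independent -/
def Good (F : Type*) [Field F] [Module F V] {k : ℕ} (E : Finset V) (f : V → Option (Fin k)) :
    Prop :=
  (∀ x, f x ≠ none → x ∈ E) ∧ ∀ i, LinearIndepOn F id (cls f i)

open Classical in
/-- the number of coloured elements -/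
noncomputable def size {k : ℕ} (E : Finset V) (f : V → Option (Fin k)) : ℕ :=
  (E.filter (fun x => f x ≠ none)).card

open Classical in
/-- the swap of the colour `i` from `w` to `z` -/
noncomputable def swp {k : ℕ} (f : V → Option (Fin k)) (z w : V) (i : Fin k) :
    V → Option (Fin k) :=
  Function.update (Function.update f z (some i)) w none

inductive Reach (F : Type*) [Field F] [Module F V] {k : ℕ} (f0 : V → Option (Fin k)) (y : V) :
    (V → Option (Fin k)) → V → Prop
  | base : Reach F f0 y f0 y
  | step {f : V → Option (Fin k)} {z w : V} {i : Fin k} (h : Reach F f0 y f z)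
      (hw : f w = some i) (hz : z ∉ span F (cls f i \ {w})) : Reach F f0 y (swp f z w i) w

variable {k : ℕ}

theorem cls_swp_self {f : V → Option (Fin k)} {z w : V} {i : Fin k} (hz : f z = none)
    (hw : f w = some i) : cls (swp f z w i) i = insert z (cls f i \ {w}) := by
  classical
  have hzw : z ≠ w := by
    rintro rfl
    rw [hz] at hw
    cases hw
  ext x
  simp only [cls, swp, Set.mem_ofPred_eq, mem_insert_iff, mem_sdiff, mem_singleton_iff]
  by_cases hxw : x = w
  · subst hxw
    simp [hzw.symm]
  · rw [Function.update_of_ne hxw]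
    by_cases hxz : x = z
    · subst hxz
      simp
    · rw [Function.update_of_ne hxz]
      simp [hxw, hxz]

theorem cls_swp_ne {f : V → Option (Fin k)} {z w : V} {i j : Fin k} (hz : f z = none)
    (hw : f w = some i) (hij : j ≠ i) : cls (swp f z w i) j = cls f j := by
  classical
  have hzw : z ≠ w := by
    rintro rfl
    rw [hz] at hw
    cases hw
  ext x
  simp only [cls, swp, Set.mem_ofPred_eq]
  by_cases hxw : x = w
  · subst hxw
    simp [hw, hij.symm]
  · rw [Function.update_of_ne hxw]
    by_cases hxz : x = z
    · subst hxz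
      simp [hz, hij.symm]
    · rw [Function.update_of_ne hxz]

theorem size_swp {E : Finset V} {f : V → Option (Fin k)} {z w : V} {i : Fin k} (hz : f z = none)
    (hw : f w = some i) (hzE : z ∈ E) (hwE : w ∈ E) : size E (swp f z w i) = size E f := by
  classical
  have hzw : z ≠ w := by
    rintro rfl
    rw [hz] at hw
    cases hw
  have hval : ∀ x, swp f z w i x ≠ none ↔ x = z ∨ (x ≠ w ∧ f x ≠ none) := by
    intro x
    rw [swp]
    by_cases hxw : x = w
    · subst hxw
      simp [hzw.symm]
    · rw [Function.update_of_ne hxw]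
      by_cases hxz : x = z
      · subst hxz
        simp
      · rw [Function.update_of_ne hxz]
        simp [hxw, hxz]
  have h : E.filter (fun x => swp f z w i x ≠ none) =
      insert z ((E.filter (fun x => f x ≠ none)).erase w) := by
    ext x
    rw [Finset.mem_filter, Finset.mem_insert, Finset.mem_erase, Finset.mem_filter, hval]
    constructor
    · rintro ⟨h1, h2 | h2⟩
      · exact Or.inl h2
      · exact Or.inr ⟨h2.1, h1, h2.2⟩
    · rintro (h1 | h1)
      · exact ⟨h1 ▸ hzE, Or.inl h1⟩
      · exact ⟨h1.2.1, Or.inr ⟨h1.1, h1.2.2⟩⟩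
  rw [size, size, h, Finset.card_insert_of_notMem, Finset.card_erase_of_mem]
  · have : 0 < (E.filter (fun x => f x ≠ none)).card := by
      rw [Finset.card_pos]
      exact ⟨w, by simp [hwE, hw]⟩
    omega
  · simp [hwE, hw]
  · simp [hz]

theorem good_swp {E : Finset V} {f : V → Option (Fin k)} {z w : V} {i : Fin k}
    (hf : Good F E f) (hz : f z = none) (hzE : z ∈ E)
    (hw : f w = some i) (hzs : z ∉ span F (cls f i \ {w})) : Good F E (swp f z w i) := by
  classical
  constructor
  · intro x hx
    rw [swp] at hx
    by_cases hxw : x = w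
    · subst hxw
      simp at hx
    · rw [Function.update_of_ne hxw] at hx
      by_cases hxz : x = z
      · subst hxz
        exact hzE
      · rw [Function.update_of_ne hxz] at hx
        exact hf.1 x hx
  · intro j
    by_cases hij : j = i
    · subst hij
      rw [cls_swp_self hz hw]
      exact ((hf.2 j).mono sdiff_subset).insert (by simpa using hzs)
    · rw [cls_swp_ne hz hw hij]
      exact hf.2 j

/-- maximality -/
theorem mem_span_of_max {E : Finset V} {f : V → Option (Fin k)} {z : V}
    (hf : Good F E f) (hz : f z = none) (hzE : z ∈ E)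
    (hmax : ∀ g : V → Option (Fin k), Good F E g → size E g ≤ size E f) (i : Fin k) :
    z ∈ span F (cls f i) := by
  classical
  by_contra hcon
  set g : V → Option (Fin k) := Function.update f z (some i) with hg
  have hcls : cls g i = insert z (cls f i) := by
    ext x
    simp only [cls, hg, Set.mem_ofPred_eq, mem_insert_iff]
    by_cases hxz : x = z
    · subst hxz
      simp
    · rw [Function.update_of_ne hxz]
      simp [hxz]
  have hcls' : ∀ j, j ≠ i → cls g j = cls f j := by
    intro j hj
    ext x
    simp only [cls, hg, Set.mem_ofPred_eq]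
    by_cases hxz : x = z
    · subst hxz
      simp [hz, hj.symm]
    · rw [Function.update_of_ne hxz]
  have hgood : Good F E g := by
    constructor
    · intro x hx
      by_cases hxz : x = z
      · subst hxz
        exact hzE
      · rw [hg, Function.update_of_ne hxz] at hx
        exact hf.1 x hx
    · intro j
      by_cases hij : j = i
      · subst hij
        rw [hcls]
        exact (hf.2 j).insert (by simpa using hcon)
      · rw [hcls' j hij]
        exact hf.2 j
  have hsize : size E g = size E f + 1 := by
    have h : E.filter (fun x => g x ≠ none) = insert z (E.filter (fun x => f x ≠ none)) := by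
      ext x
      simp only [Finset.mem_filter, Finset.mem_insert, hg]
      by_cases hxz : x = z
      · subst hxz
        simp [hzE]
      · rw [Function.update_of_ne hxz]
        simp [hxz]
    rw [size, size, h, Finset.card_insert_of_notMem]
    simp [hz]
  have := hmax g hgood
  omega

theorem reach_inv {E : Finset V} {f0 : V → Option (Fin k)} {y : V} (hf0 : Good F E f0)
    (hy : f0 y = none) (hyE : y ∈ E) {f : V → Option (Fin k)} {z : V} (h : Reach F f0 y f z) :
    Good F E f ∧ f z = none ∧ z ∈ E ∧ size E f = size E f0 := by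
  classical
  induction h with
  | base => exact ⟨hf0, hy, hyE, rfl⟩
  | @step f z w i h hw hz ih =>
    obtain ⟨h1, h2, h3, h4⟩ := ih
    have hwE : w ∈ E := h1.1 w (by rw [hw]; simp)
    refine ⟨good_swp h1 h2 h3 hw hz, ?_, hwE, ?_⟩
    · simp [swp]
    · rw [size_swp h2 hw h3 hwE, h4]

/-- the set of reachable elements -/
def RSet (F : Type*) [Field F] [Module F V] {k : ℕ} (f0 : V → Option (Fin k)) (y : V) : Set V :=
  {z | ∃ f, Reach F f0 y f z}

theorem mem_span_inter {E : Finset V} {f0 : V → Option (Fin k)} {y : V} (hf0 : Good F E f0)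
    (hy : f0 y = none) (hyE : y ∈ E)
    (hmax : ∀ g : V → Option (Fin k), Good F E g → size E g ≤ size E f0)
    {f : V → Option (Fin k)} {z : V} (h : Reach F f0 y f z) (i : Fin k) :
    z ∈ span F (cls f i ∩ RSet F f0 y) := by
  classical
  obtain ⟨h1, h2, h3, h4⟩ := reach_inv hf0 hy hyE h
  have hz : z ∈ span F (cls f i) := mem_span_of_max h1 h2 h3 (fun g hg => h4 ▸ hmax g hg) i
  obtain ⟨c, hc, hcz⟩ := Submodule.mem_span_set.1 hz
  have hsub : (↑c.support : Set V) ⊆ cls f i ∩ RSet F f0 y := by
    intro w hw
    refine ⟨hc hw, swp f z w i, ?_⟩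
    refine Reach.step h (hc hw) ?_
    intro hcon
    have hli := h1.2 i
    -- w is in the span of the others
    have hw' : w ∈ span F (cls f i \ {w}) := by
      have hsum : z = c w • w + (c.erase w).sum fun m r => r • m := by
        rw [← hcz]
        rw [Finsupp.sum, Finsupp.sum, Finsupp.support_erase]
        rw [← Finset.add_sum_erase _ _ hw]
        congr 1
        refine Finset.sum_congr rfl fun m hm => ?_
        rw [Finsupp.erase_ne (Finset.ne_of_mem_erase hm)]
      have hrest : ((c.erase w).sum fun m r => r • m) ∈ span F (cls f i \ {w}) := by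
        refine Submodule.sum_mem _ fun m hm => ?_
        rw [Finsupp.support_erase] at hm
        exact Submodule.smul_mem _ _ (subset_span ⟨hc (Finset.mem_of_mem_erase hm),
          by simpa using Finset.ne_of_mem_erase hm⟩)
      have h5 : c w • w ∈ span F (cls f i \ {w}) := by
        have : c w • w = z - (c.erase w).sum fun m r => r • m := by
          rw [hsum]
          simp
        rw [this]
        exact sub_mem hcon hrest
      have hcw : c w ≠ 0 := by simpa using hw
      exact (Submodule.smul_mem_iff _ hcw).1 h5
    have hwi : w ∈ cls f i := hc hw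
    have h6 := (linearIndepOn_iff_notMem_span.1 hli) w hwi
    exact h6 (by simpa using hw')
  rw [← hcz]
  exact Submodule.sum_mem _ fun m hm => Submodule.smul_mem _ _ (subset_span (hsub hm))

theorem span_inter_eq {E : Finset V} {f0 : V → Option (Fin k)} {y : V} (hf0 : Good F E f0)
    (hy : f0 y = none) (hyE : y ∈ E)
    (hmax : ∀ g : V → Option (Fin k), Good F E g → size E g ≤ size E f0)
    {f : V → Option (Fin k)} {z : V} (h : Reach F f0 y f z) (j : Fin k) :
    span F (cls f j ∩ RSet F f0 y) = span F (cls f0 j ∩ RSet F f0 y) := by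
  classical
  induction h with
  | base => rfl
  | @step f z w i h hw hz ih =>
    obtain ⟨h1, h2, h3, h4⟩ := reach_inv hf0 hy hyE h
    rw [← ih]
    by_cases hij : j = i
    · subst hij
      rw [cls_swp_self h2 hw]
      have hzR : z ∈ RSet F f0 y := ⟨f, h⟩
      have hwR : w ∈ RSet F f0 y := ⟨_, Reach.step h hw hz⟩
      set A := cls f j ∩ RSet F f0 y with hA
      have hwA : w ∈ A := ⟨hw, hwR⟩
      have heq : insert z (cls f j \ {w}) ∩ RSet F f0 y = insert z (A \ {w}) := by
        ext x
        simp only [hA, mem_inter_iff, mem_insert_iff, mem_sdiff, mem_singleton_iff]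
        constructor
        · rintro ⟨h5 | h5, h6⟩
          · exact Or.inl h5
          · exact Or.inr ⟨⟨h5.1, h6⟩, h5.2⟩
        · rintro (h5 | h5)
          · exact ⟨Or.inl h5, h5 ▸ hzR⟩
          · exact ⟨Or.inr ⟨h5.1.1, h5.2⟩, h5.1.2⟩
      rw [heq]
      have hzA : z ∈ span F A := mem_span_inter hf0 hy hyE hmax h j
      have hAeq : insert w (A \ {w}) = A := by
        rw [insert_sdiff_singleton, insert_eq_of_mem hwA]
      apply le_antisymm
      · rw [span_le]
        rintro x (rfl | hx)
        · exact hzA
        · exact subset_span hx.1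
      · rw [span_le]
        intro x hx
        by_cases hxw : x = w
        · subst hxw
          refine mem_span_insert_exchange ?_ ?_
          · rw [hAeq]
            exact hzA
          · intro hcon
            exact hz (span_mono (sdiff_subset_sdiff_left inter_subset_left) hcon)
        · exact subset_span (Or.inr ⟨hx, hxw⟩)
    · rw [cls_swp_ne h2 hw hij]

/-- **Covering theorem** (Edmonds) for finite sets of vectors. -/
theorem cover (E : Finset V) (k : ℕ)
    (hE : ∀ X ⊆ E, X.card ≤ k * finrank F (span F (X : Set V))) :
    ∃ f : V → Option (Fin k), (∀ x ∈ E, f x ≠ none) ∧ ∀ i, LinearIndepOn F id (cls f i) := by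
  classical
  -- maximal colouring
  have hbdd : ∀ g : V → Option (Fin k), size E g ≤ E.card := fun g => Finset.card_filter_le _ _
  have hex : ∃ f0 : V → Option (Fin k), Good F E f0 ∧
      ∀ g : V → Option (Fin k), Good F E g → size E g ≤ size E f0 := by
    have h0 : Good F E (fun _ => none : V → Option (Fin k)) := by
      refine ⟨fun x hx => absurd rfl hx, fun i => ?_⟩
      have : cls (fun _ => none : V → Option (Fin k)) i = ∅ := by
        ext x
        simp [cls]
      rw [this]
      exact linearIndepOn_empty _ _
    let P : ℕ → Prop := fun m => ∃ f : V → Option (Fin k), Good F E f ∧ size E f = m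
    have hP : ∃ m, P m := ⟨_, _, h0, rfl⟩
    obtain ⟨m, hm⟩ := hP
    have hspec := Nat.findGreatest_spec (P := P) (n := E.card) (m := m) (by
      obtain ⟨f, hf, rfl⟩ := hm
      exact hbdd f) hm
    obtain ⟨f0, hf0, hs⟩ := hspec
    refine ⟨f0, hf0, fun g hg => ?_⟩
    rw [hs]
    exact Nat.le_findGreatest (hbdd g) ⟨g, hg, rfl⟩
  obtain ⟨f0, hf0, hmax⟩ := hex
  refine ⟨f0, ?_, hf0.2⟩
  intro y hyE hy
  set R := RSet F f0 y with hR
  have hRE : R ⊆ (E : Set V) := by
    rintro z ⟨f, hf⟩
    exact (reach_inv hf0 hy hyE hf).2.2.1
  have hRfin : R.Finite := E.finite_toSet.subset hRE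
  have hyR : y ∈ R := ⟨f0, Reach.base⟩
  have hspan : ∀ i, span F (cls f0 i ∩ R) = span F R := by
    intro i
    apply le_antisymm (span_mono inter_subset_right)
    rw [span_le]
    rintro z ⟨f, hf⟩
    rw [SetLike.mem_coe, ← span_inter_eq hf0 hy hyE hmax hf i]
    exact mem_span_inter hf0 hy hyE hmax hf i
  set RF : Finset V := hRfin.toFinset with hRF
  have hRFc : (RF : Set V) = R := by simp [hRF]
  have hsubE : RF ⊆ E := by
    intro x hx
    have : x ∈ R := by simpa [hRF] using hx
    exact hRE this
  have h1 := hE RF hsubE
  rw [hRFc] at h1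
  -- count
  have hcard : ∀ i : Fin k, (RF.filter (fun x => f0 x = some i)).card = finrank F (span F R) := by
    intro i
    have hli : LinearIndepOn F id (cls f0 i ∩ R) := (hf0.2 i).mono inter_subset_left
    have hc : ((RF.filter (fun x => f0 x = some i) : Finset V) : Set V) = cls f0 i ∩ R := by
      ext x
      simp only [Finset.coe_filter, hRF, Set.Finite.mem_toFinset, Set.mem_ofPred_eq, cls, mem_inter_iff]
      tauto
    rw [← hspan i, ← hc]
    have hli' : LinearIndependent F ((↑) : ((RF.filter (fun x => f0 x = some i) : Finset V)) → V) := by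
      rw [← hc] at hli
      exact hli
    rw [finrank_span_finset_eq_card hli']
  have hsum : RF.card = (RF.filter (fun x => f0 x = none)).card +
      ∑ i : Fin k, (RF.filter (fun x => f0 x = some i)).card := by
    rw [Finset.card_eq_sum_card_fiberwise (f := f0) (t := Finset.univ) (by intro x _; simp),
      Fintype.sum_option]
  have hnone : 1 ≤ (RF.filter (fun x => f0 x = none)).card := by
    rw [Nat.one_le_iff_ne_zero, ← Nat.pos_iff_ne_zero, Finset.card_pos]
    exact ⟨y, by simp [hRF, hy, hyR]⟩
  rw [hsum, Finset.sum_congr rfl (fun i _ => hcard i)] at h1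
  simp only [Finset.sum_const, Finset.card_univ, Fintype.card_fin, smul_eq_mul] at h1
  omega

/-- a functional equal to `1` on an independent set -/
theorem exists_one_on {I : Set V} (hI : LinearIndepOn F id I) :
    ∃ g : V →ₗ[F] F, ∀ x ∈ I, g x = 1 := by
  let b := Basis.extend hI
  refine ⟨b.constr F (fun _ => (1 : F)), fun x hx => ?_⟩
  have hx' : x ∈ hI.extend (subset_univ _) := Basis.subset_extend hI hx
  have h1 : b ⟨x, hx'⟩ = x := Basis.extend_apply_self hI ⟨x, hx'⟩
  have h2 := b.constr_basis F (fun _ => (1 : F)) ⟨x, hx'⟩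
  rw [h1] at h2
  exact h2

/-- functionals covering a finite set of vectors of bounded density -/
theorem cover_functionals (E : Finset V) (k : ℕ)
    (hE : ∀ X ⊆ E, X.card ≤ k * finrank F (span F (X : Set V))) :
    ∃ g : Fin k → (V →ₗ[F] F), ∀ x ∈ E, ∃ i, g i x ≠ 0 := by
  obtain ⟨f, h1, h2⟩ := cover E k hE
  choose g hg using fun i => exists_one_on (h2 i)
  refine ⟨g, fun x hx => ?_⟩
  obtain ⟨i, hi⟩ := Option.ne_none_iff_exists'.1 (h1 x hx)
  refine ⟨i, ?_⟩
  rw [hg i x hi]
  exact one_ne_zero

end Pool.Agent.T6.H84.Cover
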