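import Pool.Agent.T6.H84.Wheel
import Pool.Agent.T6.H84.Cover
import Pool.Agent.Helper236.TugDefs

namespace Pool.Agent.T6.H84.WheelMinor

open Set Module Submodule Pool.Agent.Helper236 Pool.Agent.T6.H84.Wheel

/-- The wheel graph with `r` spokes (for `r ≥ 3`): the hub is `none`, the rim vertices are
`some i` with `i < r`; the hub is adjacent to every rim vertex, and `some i` is adjacent to
`some j` when `j = i + 1` modulo `r`. -/
def wheel (r : ℕ) : SimpleGraph (Option (Fin r)) :=
  SimpleGraph.fromRel fun a b => a = none ∨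
    ∃ i j : Fin r, a = some i ∧ b = some j ∧ (j : ℕ) = ((i : ℕ) + 1) % r

/-- `K` is the cycle matroid of the graph `G`: its elements are the edges of `G`, and a set of
edges is independent iff it is acyclic. -/
def IsCycleMatroid {ν : Type} (G : SimpleGraph ν) (K : Matroid (Sym2 ν)) : Prop :=
  K.E = G.edgeSet ∧ ∀ I ⊆ K.E, K.Indep I ↔ (SimpleGraph.fromEdgeSet I).IsAcyclic

section cycle

variable {F W : Type*} [Field F] [AddCommGroup W] [Module F W] {ν : Type*}

/-- the difference vector of an edge -/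
noncomputable def dv (a : ν → W) (s : Sym2 ν) : W :=
  a (Quot.out s).1 - a (Quot.out s).2

theorem out_eq' (s : Sym2 ν) : s((Quot.out s).1, (Quot.out s).2) = s := by
  have := Quot.out_eq s
  exact this

theorem dv_mk (a : ν → W) (i j : ν) :
    dv a s(i, j) = a i - a j ∨ dv a s(i, j) = a j - a i := by
  have h := out_eq' s(i, j)
  rw [Sym2.eq_iff] at h
  rcases h with ⟨h1, h2⟩ | ⟨h1, h2⟩
  · left
    rw [dv, h1, h2]
  · right
    rw [dv, h1, h2]

theorem dv_mem_iff (a : ν → W) (i j : ν) (U : Submodule F W) :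
    dv a s(i, j) ∈ U ↔ a i - a j ∈ U := by
  rcases dv_mk a i j with h | h
  · rw [h]
  · rw [h, ← neg_sub, neg_mem_iff]

variable [Fintype ν] [DecidableEq ν]

/-- the standard vectors -/
def sv (F : Type*) [Field F] (i : ν) : ν → F := Pi.single i 1

theorem acyclic_iff' (I : Set (Sym2 ν)) (hI : ∀ e ∈ I, ¬ e.IsDiag) :
    (SimpleGraph.fromEdgeSet I).IsAcyclic ↔ LinearIndepOn F (dv (sv F)) I := by
  classical
  rw [SimpleGraph.isAcyclic_iff_forall_isBridge, linearIndepOn_iff_notMem_span]
  have hne := hI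
  have hset : (SimpleGraph.fromEdgeSet I).edgeSet = I := by
    rw [SimpleGraph.edgeSet_fromEdgeSet]
    ext e
    simp only [Set.mem_sdiff]
    constructor
    · rintro ⟨h, _⟩
      exact h
    · intro h
      exact ⟨h, hne e h⟩
  rw [hset]
  refine forall₂_congr fun e he => ?_
  induction e with
  | _ a b =>
  have hab : a ≠ b := by
    have := hne _ he
    simpa using this
  rw [SimpleGraph.isBridge_iff, not_iff_not, dv_mem_iff]
  set G' := (SimpleGraph.fromEdgeSet I).deleteEdges {s(a, b)} with hG'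
  have hadj : ∀ c d, G'.Adj c d ↔ s(c, d) ∈ I \ {s(a, b)} ∧ c ≠ d := by
    intro c d
    rw [hG', SimpleGraph.deleteEdges_adj, SimpleGraph.fromEdgeSet_adj]
    simp only [Set.mem_singleton_iff, Set.mem_sdiff]
    tauto
  constructor
  · intro hr
    have key : ∀ c d, G'.Reachable c d →
        sv F c - sv F d ∈ span F (dv (sv F) '' (I \ {s(a, b)})) := by
      rintro c d ⟨w⟩
      induction w with
      | nil => simp
      | cons h p ih =>
        rename_i u v w
        have h1 := (hadj _ _).1 h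
        have h2 : sv F u - sv F v ∈ span F (dv (sv F) '' (I \ {s(a, b)})) := by
          rw [← dv_mem_iff]
          exact subset_span (mem_image_of_mem _ h1.1)
        have := add_mem h2 ih
        simpa using this
    exact key a b hr
  · intro hmem
    by_contra hnr
    let φ : (ν → F) →ₗ[F] F :=
      { toFun := fun x => ∑ i, if G'.Reachable a i then x i else 0
        map_add' := by
          intro x y
          rw [← Finset.sum_add_distrib]
          refine Finset.sum_congr rfl fun i _ => ?_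
          split_ifs <;> simp
        map_smul' := by
          intro c x
          simp only [Pi.smul_apply, smul_eq_mul, RingHom.id_apply, Finset.mul_sum]
          refine Finset.sum_congr rfl fun i _ => ?_
          split_ifs <;> simp }
    have hφ : ∀ i, φ (sv F i) = if G'.Reachable a i then 1 else 0 := by
      intro i
      simp only [φ, sv, LinearMap.coe_mk, AddHom.coe_mk]
      rw [Finset.sum_eq_single i]
      · simp
      · intro j _ hji
        simp [hji]
      · simp
    have hle : span F (dv (sv F) '' (I \ {s(a, b)})) ≤ LinearMap.ker φ := by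
      rw [span_le]
      rintro _ ⟨e', he', rfl⟩
      induction e' with
      | _ c d =>
      rw [SetLike.mem_coe, dv_mem_iff, LinearMap.mem_ker, map_sub, hφ, hφ, sub_eq_zero]
      have hcd : c ≠ d := by
        have := hne _ he'.1
        simpa using this
      have hA : G'.Adj c d := (hadj c d).2 ⟨he', hcd⟩
      have : G'.Reachable a c ↔ G'.Reachable a d :=
        ⟨fun h => h.trans hA.reachable, fun h => h.trans hA.symm.reachable⟩
      simp [this]
    have h0 := hle hmem
    rw [LinearMap.mem_ker, map_sub, hφ, hφ, if_pos (SimpleGraph.Reachable.refl a),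
      if_neg hnr] at h0
    simp at h0

omit [Fintype ν] in
theorem dv_apply_ne_zero_iff {s : Sym2 ν} (hs : ¬ s.IsDiag) (z : ν) :
    dv (sv F) s z ≠ 0 ↔ z ∈ s := by
  have h1 := out_eq' s
  have h2 : (Quot.out s).1 ≠ (Quot.out s).2 := by
    intro h
    apply hs
    rw [← h1, h]
    exact rfl
  rw [← h1, Sym2.mem_iff, h1]
  simp only [dv, sv, Pi.sub_apply, Pi.single_apply]
  by_cases h3 : z = (Quot.out s).1
  · have h4 : z ≠ (Quot.out s).2 := fun h => h2 (h3 ▸ h)
    simp [h3, h2]
  · by_cases h4 : z = (Quot.out s).2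
    · simp [h4, h2.symm]
    · simp [h3, h4]

omit [Fintype ν] in
theorem dv_injOn {s s' : Sym2 ν} (hs : ¬ s.IsDiag) (hs' : ¬ s'.IsDiag)
    (h : dv (sv F) s = dv (sv F) s') : s = s' := by
  apply Sym2.ext
  intro z
  rw [← dv_apply_ne_zero_iff (F := F) hs, ← dv_apply_ne_zero_iff (F := F) hs', h]

end cycle

section iso

variable {α β : Type*}

theorem iso_of_bijOn {M : Matroid α} {N : Matroid β} (g : β → α) (hg : BijOn g N.E M.E)
    (h : ∀ J ⊆ N.E, M.Indep (g '' J) ↔ N.Indep J) : Iso M N := by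
  refine ⟨(hg.equiv g).symm, fun I => ?_⟩
  set e := (hg.equiv g).symm with he
  have hJ : ((↑) '' (e '' I) : Set β) ⊆ N.E := by
    rintro _ ⟨x, -, rfl⟩
    exact x.2
  rw [← h _ hJ]
  have h1 : g '' ((↑) '' (e '' I) : Set β) = (↑) '' I := by
    ext x
    constructor
    · rintro ⟨_, ⟨_, ⟨y, hy, rfl⟩, rfl⟩, rfl⟩
      refine ⟨y, hy, ?_⟩
      have h2 : (hg.equiv g) (e y) = y := Equiv.apply_symm_apply _ _
      exact (congrArg Subtype.val h2).symm
    · rintro ⟨y, hy, rfl⟩
      refine ⟨_, ⟨_, ⟨y, hy, rfl⟩, rfl⟩, ?_⟩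
      have h2 : (hg.equiv g) (e y) = y := Equiv.apply_symm_apply _ _
      exact congrArg Subtype.val h2
  rw [h1]

end iso

variable {α : Type} {M : Matroid α} {W : Type*} [AddCommGroup W] [Module (ZMod 2) W] {v : α → W}

theorem exists_wheel_minor (h : Rep (ZMod 2) M v) {r : ℕ} (hr : 1 ≤ r)
    (hw : HasWheel r (v '' M.E)) {K : Matroid (Sym2 (Option (Fin r)))}
    (hK : IsCycleMatroid (wheel r) K) : ∃ N : Matroid α, N.IsMinor M ∧ Iso N K := by
  classical
  obtain ⟨X, hX, s, ρ, hs, hρ, hind, hrim⟩ := hw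
  set C : Set α := {e | e ∈ M.E ∧ v e ∈ X} with hC
  have hCE : C ⊆ M.E := fun e he => he.1
  have hvC : v '' C = X := by
    ext x
    constructor
    · rintro ⟨e, he, rfl⟩
      exact he.2
    · intro hx
      obtain ⟨e, he, rfl⟩ := hX hx
      exact ⟨e, ⟨he, hx⟩, rfl⟩
  set U := span (ZMod 2) (v '' C) with hU
  have hUX : U = span (ZMod 2) X := by rw [hU, hvC]
  set p := U.mkQ with hp
  let a : Option (Fin r) → W ⧸ U := fun o => o.elim 0 (fun i => p (s i))
  let Λ : (Option (Fin r) → ZMod 2) →ₗ[ZMod 2] W ⧸ U := Fintype.linearCombination (ZMod 2) a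
  have hΛsv : ∀ o, Λ (sv (ZMod 2) o) = a o := by
    intro o
    simp [Λ, sv]
  have hΛdv : ∀ ε, Λ (dv (sv (ZMod 2)) ε) = dv a ε := by
    intro ε
    rw [dv, map_sub, hΛsv, hΛsv, dv]
  have hE : ∀ ε ∈ (wheel r).edgeSet, ¬ ε.IsDiag := fun ε hε =>
    (wheel r).not_isDiag_of_mem_edgeSet hε
  -- every edge is a difference of an element
  have hrel : ∀ x y : Option (Fin r), x ≠ y → (x = none ∨
      ∃ i j : Fin r, x = some i ∧ y = some j ∧ (j : ℕ) = ((i : ℕ) + 1) % r) →
      ∃ e ∈ M.E, p (v e) = a x - a y := by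
    rintro x y hxy (rfl | ⟨i, j, rfl, rfl, hij⟩)
    · cases y with
      | none => exact absurd rfl hxy
      | some i =>
        obtain ⟨e, he, hes⟩ := hs i
        refine ⟨e, he, ?_⟩
        have : a none - a (some i) = p (s i) := by
          simp only [a, Option.elim]
          rw [ZModModule.sub_eq_add, zero_add]
        rw [this, hes]
    · obtain ⟨e, he, hes⟩ := hρ i
      refine ⟨e, he, ?_⟩
      have h1 : p (ρ i - (s i + s j)) = 0 := by
        rw [hp, Submodule.mkQ_apply, Submodule.Quotient.mk_eq_zero, hUX]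
        exact hrim i j hij
      rw [map_sub, sub_eq_zero, map_add] at h1
      rw [hes, h1]
      simp only [a, Option.elim]
      rw [ZModModule.sub_eq_add]
  have hexE : ∀ ε ∈ (wheel r).edgeSet, ∃ e ∈ M.E, p (v e) = dv a ε := by
    intro ε
    induction ε with
    | _ x y =>
    intro hε
    rw [SimpleGraph.mem_edgeSet, wheel, SimpleGraph.fromRel_adj] at hε
    have hsymm : a x - a y = a y - a x := by
      rw [ZModModule.sub_eq_add, ZModModule.sub_eq_add, add_comm]
    have hdv : dv a s(x, y) = a x - a y := by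
      rcases dv_mk a x y with h1 | h1
      · exact h1
      · rw [h1, hsymm]
    rw [hdv]
    rcases hε.2 with h1 | h1
    · exact hrel x y hε.1 h1
    · rw [hsymm]
      exact hrel y x hε.1.symm h1
  obtain ⟨e0, he0, -⟩ := hs ⟨0, by omega⟩
  have : Nonempty α := ⟨e0⟩
  choose! g hgE hg using hexE
  -- injectivity of Λ on the span
  set S := span (ZMod 2) (dv (sv (ZMod 2)) '' (wheel r).edgeSet) with hS
  have hsum0 : ∀ f ∈ S, ∑ o, f o = 0 := by
    intro f hf
    induction hf using Submodule.span_induction with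
    | mem x hx =>
      obtain ⟨ε, -, rfl⟩ := hx
      simp only [dv, Pi.sub_apply, Finset.sum_sub_distrib, sv]
      rw [Finset.sum_pi_single', Finset.sum_pi_single']
      simp
    | zero => simp
    | add x y _ _ hx hy => simp [Finset.sum_add_distrib, hx, hy]
    | smul c x _ hx => simp [← Finset.mul_sum, hx]
  have hΛ0 : ∀ f ∈ S, Λ f = 0 → f = 0 := by
    intro f hf hf0
    have h1 : Λ f = p (∑ i, f (some i) • s i) := by
      simp only [Λ, Fintype.linearCombination_apply, Fintype.sum_option, a, Option.elim]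
      rw [smul_zero, zero_add, map_sum]
      simp
    rw [h1, hp, Submodule.mkQ_apply, Submodule.Quotient.mk_eq_zero, hUX] at hf0
    have h2 := hind _ hf0
    have h3 := hsum0 f hf
    rw [Fintype.sum_option] at h3
    funext o
    cases o with
    | none =>
      have h4 : ∑ i, f (some i) = 0 := Finset.sum_eq_zero fun i _ => congrFun h2 i
      rw [h4, add_zero] at h3
      exact h3
    | some i => exact congrFun h2 i
  have hΛinj : Set.InjOn Λ S := by
    intro f hf f' hf' hff
    have h1 : f - f' ∈ S := sub_mem hf hf'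
    have h2 : Λ (f - f') = 0 := by rw [map_sub, hff, sub_self]
    exact sub_eq_zero.1 (hΛ0 _ h1 h2)
  have hdvS : ∀ ε ∈ (wheel r).edgeSet, dv (sv (ZMod 2)) ε ∈ S := fun ε hε =>
    subset_span (mem_image_of_mem _ hε)
  have hginj : Set.InjOn g (wheel r).edgeSet := by
    intro ε hε ε' hε' hgg
    have h1 : dv a ε = dv a ε' := by
      rw [← hg ε hε, ← hg ε' hε', hgg]
    rw [← hΛdv, ← hΛdv] at h1
    exact dv_injOn (hE ε hε) (hE ε' hε') (hΛinj (hdvS ε hε) (hdvS ε' hε') h1)
  have hgC : ∀ ε ∈ (wheel r).edgeSet, g ε ∉ C := by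
    intro ε hε hgC
    have h1 : p (v (g ε)) = 0 := by
      rw [hp, Submodule.mkQ_apply, Submodule.Quotient.mk_eq_zero]
      exact subset_span (mem_image_of_mem v hgC)
    rw [hg ε hε, ← hΛdv] at h1
    have h2 := hΛ0 _ (hdvS ε hε) h1
    have h4 : (Quot.out ε).1 ∈ ε := by
      have h5 := Sym2.mem_mk_left (Quot.out ε).1 (Quot.out ε).2
      rwa [out_eq'] at h5
    have h3 := (dv_apply_ne_zero_iff (F := ZMod 2) (hE ε hε) (Quot.out ε).1).2 h4
    rw [h2] at h3
    exact h3 rfl
  set T := g '' (wheel r).edgeSet with hT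
  have hTE : T ⊆ M.E := by
    rintro _ ⟨ε, hε, rfl⟩
    exact hgE ε hε
  set N := (M.contract C).delete (M.E \ T) with hN
  have hNE : N.E = T := by
    ext x
    constructor
    · rintro ⟨⟨hx1, hx2⟩, hx3⟩
      by_contra hxT
      exact hx3 ⟨hx1, hxT⟩
    · rintro ⟨ε, hε, rfl⟩
      exact ⟨⟨hgE ε hε, hgC ε hε⟩, fun h => h.2 ⟨ε, hε, rfl⟩⟩
  refine ⟨N, ⟨C, M.E \ T, rfl⟩, ?_⟩
  have hNrep : Rep (ZMod 2) N (p ∘ v) := h.minor C (M.E \ T) hCE
  refine iso_of_bijOn g ?_ ?_
  · rw [hNE, hK.1]
    exact ⟨fun ε hε => mem_image_of_mem g hε, hginj, fun x hx => hx⟩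
  · intro J hJ
    have hJ' : J ⊆ (wheel r).edgeSet := hK.1 ▸ hJ
    rw [hK.2 J hJ, acyclic_iff' (F := ZMod 2) J (fun e he => hE e (hJ' he)),
      hNrep _ (by rw [hNE]; exact image_mono hJ')]
    have h1 : LinearIndepOn (ZMod 2) (p ∘ v) (g '' J) ↔
        LinearIndepOn (ZMod 2) ((p ∘ v) ∘ g) J :=
      ⟨fun hi => LinearIndepOn.comp_of_image hi (hginj.mono hJ'),
        fun hi => LinearIndepOn.image_of_comp g (p ∘ v) hi⟩
    have h2 : LinearIndepOn (ZMod 2) ((p ∘ v) ∘ g) J ↔
        LinearIndepOn (ZMod 2) (Λ ∘ dv (sv (ZMod 2))) J := by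
      have : EqOn ((p ∘ v) ∘ g) (Λ ∘ dv (sv (ZMod 2))) J := by
        intro ε hε
        simp only [Function.comp]
        rw [hg ε (hJ' hε), hΛdv]
      exact linearIndepOn_congr this
    rw [h1, h2]
    constructor
    · intro hi
      exact hi.of_comp Λ
    · intro hi
      exact hi.map_injOn Λ (hΛinj.mono (span_mono (image_mono hJ')))

end Pool.Agent.T6.H84.WheelMinor
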