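import Mathlib

namespace Pool.Agent.T6.H84.Words

/-- the 0-1 words with at most `a` trues and at most `b` falses -/
def W : ℕ → ℕ → Finset (List Bool)
  | 0, 0 => {[]}
  | a + 1, 0 => insert [] ((W a 0).image (List.cons true))
  | 0, b + 1 => insert [] ((W 0 b).image (List.cons false))
  | a + 1, b + 1 => insert [] ((W a (b + 1)).image (List.cons true) ∪
      (W (a + 1) b).image (List.cons false))
termination_by a b => a + b

theorem mem_W : ∀ (a b : ℕ) (l : List Bool), l.count true ≤ a → l.count false ≤ b → l ∈ W a b
  | 0, 0, l, h1, h2 => by
    rcases l with _ | ⟨x, l⟩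
    · rw [W]; simp
    · cases x <;> simp at h1 h2
  | a + 1, 0, l, h1, h2 => by
    rcases l with _ | ⟨x, l⟩
    · rw [W]; simp
    · cases x
      · simp at h2
      · rw [W]
        simp only [Finset.mem_insert, Finset.mem_image]
        right
        refine ⟨l, mem_W a 0 l ?_ ?_, rfl⟩
        · simpa using h1
        · simpa using h2
  | 0, b + 1, l, h1, h2 => by
    rcases l with _ | ⟨x, l⟩
    · rw [W]; simp
    · cases x
      · rw [W]
        simp only [Finset.mem_insert, Finset.mem_image]
        right
        refine ⟨l, mem_W 0 b l ?_ ?_, rfl⟩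
        · simpa using h1
        · simpa using h2
      · simp at h1
  | a + 1, b + 1, l, h1, h2 => by
    rcases l with _ | ⟨x, l⟩
    · rw [W]; simp
    · rw [W]
      simp only [Finset.mem_insert, Finset.mem_union, Finset.mem_image]
      right
      cases x
      · right
        refine ⟨l, mem_W (a + 1) b l ?_ ?_, rfl⟩
        · simpa using h1
        · simpa using h2
      · left
        refine ⟨l, mem_W a (b + 1) l ?_ ?_, rfl⟩
        · simpa using h1
        · simpa using h2
termination_by a b => a + b

theorem card_W : ∀ a b : ℕ, (W a b).card + 1 ≤ Nat.choose (a + b + 2) (a + 1)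
  | 0, 0 => by rw [W]; simp
  | a + 1, 0 => by
    have h := card_W a 0
    rw [W]
    have h1 := Finset.card_insert_le ([] : List Bool) ((W a 0).image (List.cons true))
    have h2 : ((W a 0).image (List.cons true)).card ≤ (W a 0).card := Finset.card_image_le
    have h3 : Nat.choose (a + 1 + 0 + 2) (a + 1 + 1) =
        Nat.choose (a + 0 + 2) (a + 1) + Nat.choose (a + 0 + 2) (a + 2) := by
      have := Nat.choose_succ_succ (a + 2) (a + 1)
      simp
    have h4 : Nat.choose (a + 0 + 2) (a + 2) = 1 := by simp
    omega
  | 0, b + 1 => by
    have h := card_W 0 b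
    rw [W]
    have h1 := Finset.card_insert_le ([] : List Bool) ((W 0 b).image (List.cons false))
    have h2 : ((W 0 b).image (List.cons false)).card ≤ (W 0 b).card := Finset.card_image_le
    have h3 : Nat.choose (0 + (b + 1) + 2) (0 + 1) = Nat.choose (0 + b + 2) (0 + 1) + 1 := by
      simp
    omega
  | a + 1, b + 1 => by
    have h := card_W a (b + 1)
    have h' := card_W (a + 1) b
    rw [W]
    have h1 := Finset.card_insert_le ([] : List Bool) ((W a (b + 1)).image (List.cons true) ∪
      (W (a + 1) b).image (List.cons false))
    have h2 : ((W a (b + 1)).image (List.cons true)).card ≤ (W a (b + 1)).card :=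
      Finset.card_image_le
    have h2' : ((W (a + 1) b).image (List.cons false)).card ≤ (W (a + 1) b).card :=
      Finset.card_image_le
    have h5 := Finset.card_union_le ((W a (b + 1)).image (List.cons true))
      ((W (a + 1) b).image (List.cons false))
    have h3 : Nat.choose (a + 1 + (b + 1) + 2) (a + 1 + 1) =
        Nat.choose (a + (b + 1) + 2) (a + 1) + Nat.choose (a + 1 + b + 2) (a + 1 + 1) := by
      have := Nat.choose_succ_succ (a + b + 3) (a + 1)
      have e1 : a + 1 + (b + 1) + 2 = (a + b + 3).succ := by omega
      have e2 : a + (b + 1) + 2 = a + b + 3 := by omega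
      have e3 : a + 1 + b + 2 = a + b + 3 := by omega
      rw [e1, e2, e3]
      exact this
    omega
termination_by a b => a + b

theorem count_map_range (A : ℕ → Bool) (c : Bool) (m : ℕ) :
    ((List.range m).map A).count c = ((Finset.range m).filter (fun i => A i = c)).card := by
  induction m with
  | zero => simp
  | succ m ih =>
    rw [List.range_succ, List.map_append, List.count_append, ih, Finset.range_add_one,
      Finset.filter_insert]
    by_cases h : A m = c
    · rw [if_pos h, Finset.card_insert_of_notMem (by simp)]
      simp [h]
    · rw [if_neg h]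
      simp [h]

/-- if a finite set injects into words with at most `a` trues and `b` falses, it is small -/
theorem card_le_of_code {α : Type*} (T : Finset α) (a b : ℕ) (code : α → List Bool)
    (hinj : Set.InjOn code T) (h1 : ∀ x ∈ T, (code x).count true ≤ a)
    (h2 : ∀ x ∈ T, (code x).count false ≤ b) : T.card + 1 ≤ Nat.choose (a + b + 2) (a + 1) := by
  classical
  have h3 : T.card ≤ (W a b).card := by
    rw [← Finset.card_image_of_injOn hinj]
    apply Finset.card_le_card
    intro l hl
    obtain ⟨x, hx, rfl⟩ := Finset.mem_image.1 hl
    exact mem_W a b _ (h1 x hx) (h2 x hx)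
  have := card_W a b
  omega

end Pool.Agent.T6.H84.Words
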